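import Mathlib
import Pool.Agent.COSB.StmtsA

/-!
# Squad COSB, row MA2: the theorem for `p = 2`
-/

set_option autoImplicit false

namespace Pool.Agent.COSB.H95

open Turing Computability Pool.Agent.UT.Num Pool.Agent.H2XG Pool.Agent.PAR Pool.Agent.COS
open Pool.Agent.COSB

theorem od_zero (P : Word → Prop) : Od 0 P ↔ P [] := by
  unfold Od
  by_cases h : P []
  · have e : {c : Word | c.length = 0 ∧ P c} = {[]} := by
      ext c
      simp only [Set.mem_ofPred_eq, Set.mem_singleton_iff]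
      constructor
      · intro hc
        exact List.eq_nil_of_length_eq_zero hc.1
      · rintro rfl
        exact ⟨rfl, h⟩
    rw [e, Set.ncard_singleton]
    exact ⟨fun _ => h, fun _ => odd_one⟩
  · have e : {c : Word | c.length = 0 ∧ P c} = ∅ := by
      ext c
      simp only [Set.mem_ofPred_eq, Set.mem_empty_iff_false, iff_false]
      intro hc
      have h1 := List.eq_nil_of_length_eq_zero hc.1
      rw [h1] at hc
      exact h hc.2
    rw [e, Set.ncard_empty]
    exact ⟨fun h0 => absurd h0 (by decide), fun h0 => absurd h0 h⟩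

theorem ma2 (hACT : ActStmt) (hAMC : AmcStmt) (hPAB : PabStmt) (hECP : EcpStmt) : Ma2Stmt := by
  intro V d k hV hk P hH
  obtain ⟨G, hG⟩ : ∃ G : Word → Word → Word → Word → Word → Bool,
      G = fun x _ _ A _ => V (x, A) := ⟨_, rfl⟩
  have hU : U5 G := by
    intro m X Y Z A C hX _ _ hA _
    rw [hG]
    exact FPB.call2 hV hX hA
  obtain ⟨g, hg⟩ : ∃ g : Word → Word → Bool, g = fun x c =>
      valA (G x x x) (d.eval x.length) (k.eval x.length) 0 c := ⟨_, rfl⟩
  obtain ⟨L, hL⟩ : ∃ L : Word → ℕ, L = fun x =>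
      LA (d.eval x.length) (k.eval x.length) 0 := ⟨_, rfl⟩
  have hgF : ∀ (m : ℕ) (A B : (Fin m → List K) → Word), FPW m A → FPW m B →
      FPB m (fun ρ => g (A ρ) (B ρ)) := by
    intro m A B hA hB
    rw [hg]
    exact hAMC G hU m A A A B _ _ _ hA hA hA hB (hA.len.poly d) (hA.len.poly k) (FPN.const 0)
  have hlaF : ∀ (m : ℕ) (n k l : (Fin m → List K) → ℕ), FPN m n → FPN m k → FPN m l →
      FPN m (fun ρ => LA (n ρ) (k ρ) (l ρ)) := by
    intro m n k l hn hk hl0
    have hhl : FPN m (fun ρ => hl (n ρ) (k ρ)) := (hn.mul hn).add ((hn.mul hn).mul hk)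
    have hN : FPN m (fun ρ => k ρ * (n ρ * n ρ)) := hk.mul (hn.mul hn)
    have hfl : FPN m (fun ρ => fl (k ρ * (n ρ * n ρ))) :=
      ((FPN.const 2).mul hN).add ((FPN.const 2).mul (hN.mul hN))
    have hcl : FPN m (fun ρ => cl (k ρ * (n ρ * n ρ)) (l ρ)) :=
      hl0.add ((hN.mul hl0).add (hN.mul hl0))
    exact hhl.add (hhl.add (hfl.add hcl))
  have hLF : ∀ (m : ℕ) (A : (Fin m → List K) → Word), FPW m A →
      FPN m (fun ρ => L (A ρ)) := by
    intro m A hA
    rw [hL]
    exact hlaF m _ _ _ (hA.len.poly d) (hA.len.poly k) (FPN.const 0)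
  obtain ⟨N, hN⟩ : ∃ N : Polynomial ℕ, N = k * (d * d) := ⟨_, rfl⟩
  obtain ⟨hlP, hhlP⟩ : ∃ hlP : Polynomial ℕ, hlP = d * d + d * d * k := ⟨_, rfl⟩
  have hLq : ∀ x, L x ≤ (hlP + (hlP + (2 * N + 2 * (N * N)))).eval x.length := by
    intro x
    rw [hL, hN, hhlP]
    simp only [Polynomial.eval_add, Polynomial.eval_mul, Polynomial.eval_ofNat]
    unfold LA hl fl cl
    omega
  refine ⟨{x | Od (L x) (fun c => g x c = true)}, hPAB g L _ hgF hLF hLq, ?_⟩
  intro x hx
  have hW : WS (d.eval x.length) (k.eval x.length) 0 (G x x x) = modSols V 2 d k x := by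
    ext A
    show Od 0 (fun c => G x x x (enc2 (k.eval x.length) A.1) c = true) ↔
      V (x, encP 2 (k.eval x.length) (d.eval x.length) A.1) = true
    rw [od_zero, hECP, hG]
  have hHW : Heap (WS (d.eval x.length) (k.eval x.length) 0 (G x x x)) := by
    rw [hW]
    exact hH x hx
  have h1 := hACT (d.eval x.length) (k.eval x.length) 0 (G x x x) (hk x.length) hHW
  rw [hW] at h1
  rw [← h1, hL, hg]
  exact Iff.rfl

end Pool.Agent.COSB.H95
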